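import Pool.Agent.H358Z.NeckD

/-!
`g(1,2) = 3`: three is the least number of colours of a colouring of the plane lattice in which
no square has a fair splitting with at most one axis-aligned cut.
-/

namespace Pool.Agent.Results.MP_9837da_co.AG12EqThree

open Finset Pool.Agent.H358Z.Neck

/-- The cube `∏ i, {a i + 1, …, a i + n}` of the lattice `ℤ^d`. -/
noncomputable def cube {d : ℕ} (a : Fin d → ℤ) (n : ℕ) : Finset (Fin d → ℤ) :=
  Fintype.piFinset fun i => Finset.Icc (a i + 1) (a i + n)

/-- `Q` has a fair splitting under the colouring `c` using at most `t` cuts.  A cut `(i, m)` is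
the hyperplane `x i = m + 1/2`; two points of `Q` are in the same piece when no cut separates them;
`part` assigns the pieces to two parts, and each colour is equally frequent in both parts. -/
def HasFairSplitting {d k : ℕ} (t : ℕ) (c : (Fin d → ℤ) → Fin k) (Q : Finset (Fin d → ℤ)) :
    Prop :=
  ∃ cuts : Finset (Fin d × ℤ), cuts.card ≤ t ∧ ∃ part : (Fin d → ℤ) → Bool,
    (∀ p ∈ Q, ∀ q ∈ Q, (∀ h ∈ cuts, (p h.1 ≤ h.2 ↔ q h.1 ≤ h.2)) → part p = part q) ∧
    ∀ j : Fin k, (Q.filter fun p => c p = j ∧ part p = true).card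
      = (Q.filter fun p => c p = j ∧ part p = false).card

lemma signed_ind {k : ℕ} (c : (Fin 2 → ℤ) → Fin k) (Q : Finset (Fin 2 → ℤ))
    (part : (Fin 2 → ℤ) → Bool) (j : Fin k) :
    ∑ p ∈ Q, (if part p = true then (if c p = j then (1 : ℤ) else 0)
        else -(if c p = j then (1 : ℤ) else 0))
      = ((Q.filter fun p => c p = j ∧ part p = true).card : ℤ)
        - (Q.filter fun p => c p = j ∧ part p = false).card := by
  rw [card_filter, card_filter]
  push_cast
  rw [← sum_sub_distrib]
  refine sum_congr rfl fun p _ => ?_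
  by_cases h1 : c p = j <;> cases part p <;> simp [h1]

lemma signed_zero {k : ℕ} (c : (Fin 2 → ℤ) → Fin k) (Q : Finset (Fin 2 → ℤ))
    (part : (Fin 2 → ℤ) → Bool)
    (h : ∀ j : Fin k, (Q.filter fun p => c p = j ∧ part p = true).card
      = (Q.filter fun p => c p = j ∧ part p = false).card) (φ : Fin k → ℤ) :
    ∑ p ∈ Q, (if part p = true then φ (c p) else -φ (c p)) = 0 := by
  have e : ∀ p, (if part p = true then φ (c p) else -φ (c p))
      = ∑ j : Fin k, φ j * (if part p = true then (if c p = j then (1 : ℤ) else 0)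
        else -(if c p = j then (1 : ℤ) else 0)) := by
    intro p
    cases part p <;> simp
  rw [sum_congr rfl fun p _ => e p, sum_comm]
  refine sum_eq_zero fun j _ => ?_
  rw [← mul_sum, signed_ind, h j]
  simp

lemma side_zero {k : ℕ} (c : (Fin 2 → ℤ) → Fin k) (Q : Finset (Fin 2 → ℤ)) (hQ : Q.Nonempty)
    (h : HasFairSplitting 1 c Q) :
    ∃ (i : Fin 2) (M : ℤ), ∀ φ : Fin k → ℤ,
      ∑ p ∈ Q, (if p i ≤ M then φ (c p) else -φ (c p)) = 0 := by
  obtain ⟨cuts, hc, part, hp, hf⟩ := h
  obtain ⟨⟨i, M⟩, hs⟩ := card_le_one_iff_subset_singleton.1 hc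
  have hp' : ∀ p ∈ Q, ∀ q ∈ Q, (p i ≤ M ↔ q i ≤ M) → part p = part q := by
    intro p hp1 q hq1 hpq
    refine hp p hp1 q hq1 fun h hh => ?_
    rw [mem_singleton.1 (hs hh)]
    exact hpq
  have hz := signed_zero c Q part hf
  have hcard : (0 : ℤ) < Q.card := by exact_mod_cast hQ.card_pos
  refine ⟨i, M, fun φ => ?_⟩
  by_cases tS : ∃ p ∈ Q, p i ≤ M ∧ part p = true
  · obtain ⟨p0, hp0, s0, t0⟩ := tS
    by_cases tN : ∃ p ∈ Q, ¬ p i ≤ M ∧ part p = true
    · obtain ⟨q0, hq0, s1, t1⟩ := tN
      exfalso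
      have e := hz fun _ => 1
      rw [sum_congr rfl (g := fun _ => (1 : ℤ)) fun p hp1 => ?_] at e
      · simp only [sum_const, nsmul_eq_mul, mul_one] at e
        omega
      · by_cases s : p i ≤ M
        · rw [hp' p hp1 p0 hp0 (by tauto), t0]
          simp
        · rw [hp' p hp1 q0 hq0 (by tauto), t1]
          simp
    · rw [← hz φ]
      refine sum_congr rfl fun p hp1 => ?_
      by_cases s : p i ≤ M
      · rw [hp' p hp1 p0 hp0 (by tauto), t0]
        simp [s]
      · have : ¬ part p = true := fun t => tN ⟨p, hp1, s, t⟩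
        simp [s, this]
  · by_cases tN : ∃ p ∈ Q, ¬ p i ≤ M ∧ part p = true
    · obtain ⟨q0, hq0, s1, t1⟩ := tN
      rw [← hz fun j => -φ j]
      refine sum_congr rfl fun p hp1 => ?_
      by_cases s : p i ≤ M
      · have : ¬ part p = true := fun t => tS ⟨p, hp1, s, t⟩
        simp [s, this]
      · rw [hp' p hp1 q0 hq0 (by tauto), t1]
        simp [s]
    · exfalso
      have e := hz fun _ => -1
      rw [sum_congr rfl (g := fun _ => (1 : ℤ)) fun p hp1 => ?_] at e
      · simp only [sum_const, nsmul_eq_mul, mul_one] at e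
        omega
      · have : ¬ part p = true := fun t => by
          by_cases s : p i ≤ M
          · exact tS ⟨p, hp1, s, t⟩
          · exact tN ⟨p, hp1, s, t⟩
        simp [this]

lemma no_cut (c : ℤ → ℤ → Fin 3)
    (hc : ∀ a x y : ℤ, 1 ≤ a → ∃ j, TT (fun u v => g (c u v) j) x a a y (2 * a) ≠ 0)
    (x y M : ℤ) (n : ℕ) (hn : 1 ≤ n)
    (h : ∀ φ : Fin 3 → ℤ, ∑ u ∈ Ico x (x + n), ∑ v ∈ Ico y (y + n),
      (if u ≤ M then φ (c u v) else -φ (c u v)) = 0) : False := by
  obtain ⟨a1, a2, h1, h2, e, hM⟩ : ∃ a1 a2 : ℤ, 0 ≤ a1 ∧ 0 ≤ a2 ∧ (n : ℤ) = a1 + a2 ∧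
      ∀ u, x ≤ u → u < x + a1 + a2 → (u ≤ M ↔ u < x + a1) :=
    ⟨max 0 (min (M + 1 - x) n), n - max 0 (min (M + 1 - x) n), by omega, by omega, by omega,
      fun u _ _ => by omega⟩
  have hT : ∀ φ : Fin 3 → ℤ, TT (fun u v => φ (c u v)) x a1 a2 y n = 0 := by
    intro φ
    rw [← cut_TT (fun u v => φ (c u v)) x a1 a2 y n M h1 h2 hM, ← e]
    exact h φ
  have e1 := hT fun _ => 1
  rw [TT_one x a1 a2 y n h1 h2 (by omega)] at e1
  have e2 : a1 = a2 := by
    rcases mul_eq_zero.1 e1 with e1 | e1 <;> omega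
  subst e2
  obtain ⟨j, hj⟩ := hc a1 x y (by omega)
  apply hj
  rw [show 2 * a1 = n by omega]
  exact hT fun a => g a j

lemma upper (a : Fin 2 → ℤ) (n : ℕ) (hn : 1 ≤ n) :
    ¬ HasFairSplitting 1 (fun p : Fin 2 → ℤ => col (p 0) (p 1)) (cube a n) := by
  intro h
  have hQ : (cube a n).Nonempty := by
    refine ⟨fun i => a i + 1, ?_⟩
    simp only [cube, Fintype.mem_piFinset, mem_Icc]
    intro i
    omega
  obtain ⟨i, M, hz⟩ := side_zero _ _ hQ h
  simp only [cube, sum_sq] at hz
  fin_cases i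
  · exact no_cut col col_free (a 0 + 1) (a 1 + 1) M n hn fun φ => by simpa using hz φ
  · refine no_cut (fun u v => col v u) col_free' (a 1 + 1) (a 0 + 1) M n hn fun φ => ?_
    rw [sum_comm]
    simpa using hz φ

lemma fair_of {k : ℕ} (hk : k ≤ 2) (c : (Fin 2 → ℤ) → Fin k) (Q : Finset (Fin 2 → ℤ))
    (i : Fin 2) (M : ℤ) (h1 : ∑ p ∈ Q, (if p i ≤ M then (1 : ℤ) else -1) = 0)
    (h2 : ∑ p ∈ Q, (if p i ≤ M then iB (decide ((c p).val = 0))
      else -iB (decide ((c p).val = 0))) = 0) : HasFairSplitting 1 c Q := by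
  refine ⟨{(i, M)}, by simp, fun p => decide (p i ≤ M), ?_, fun j => ?_⟩
  · intro p _ q _ h
    have := h (i, M) (mem_singleton_self _)
    simpa using this
  · have e := signed_ind c Q (fun p => decide (p i ≤ M)) j
    have z : ∑ p ∈ Q, (if decide (p i ≤ M) = true then (if c p = j then (1 : ℤ) else 0)
        else -(if c p = j then (1 : ℤ) else 0)) = 0 := by
      by_cases hj : j.val = 0
      · refine Eq.trans (sum_congr rfl fun p _ => ?_) h2
        have : (c p = j) ↔ (c p).val = 0 := by rw [Fin.ext_iff, hj]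
        by_cases s : p i ≤ M <;> by_cases t : (c p).val = 0 <;> simp [s, t, this, iB]
      · have e3 := congrArg₂ (fun a b : ℤ => a - b) h1 h2
        simp only [sub_zero] at e3
        rw [← sum_sub_distrib] at e3
        refine Eq.trans (sum_congr rfl fun p _ => ?_) e3
        have h3 := (c p).isLt
        have h4 := j.isLt
        have : (c p = j) ↔ ¬ (c p).val = 0 := by
          rw [Fin.ext_iff]
          omega
        by_cases s : p i ≤ M <;> by_cases t : (c p).val = 0 <;> simp [s, t, this, iB]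
    rw [z] at e
    beta_reduce
    omega

theorem result : IsLeast {k : ℕ | ∃ c : (Fin 2 → ℤ) → Fin k, ∀ (a : Fin 2 → ℤ) (n : ℕ), 1 ≤ n →
    ¬ HasFairSplitting 1 c (cube a n)} 3 := by
  refine ⟨⟨fun p => col (p 0) (p 1), upper⟩, ?_⟩
  rintro k ⟨c, hc⟩
  by_contra hk
  have hk2 : k ≤ 2 := by omega
  refine two_fail (fun u v => decide ((c ![u, v]).val = 0)) ?_ ?_
  · intro a x y ha hT
    lift a to ℕ using (by omega)
    refine hc ![x - 1, y - 1] (2 * a) (by omega) (fair_of hk2 c _ 0 (x + a - 1) ?_ ?_)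
    · have := cut_TT (fun _ _ => 1) x a a y (2 * a) (x + a - 1) (by omega) (by omega)
        (fun u _ _ => by omega)
      rw [TT_one x a a y (2 * a) (by omega) (by omega) (by omega)] at this
      simp only [cube, sum_sq]
      simpa [two_mul] using this
    · have := cut_TT (fun u v => iB (decide ((c ![u, v]).val = 0))) x a a y (2 * a) (x + a - 1)
        (by omega) (by omega) (fun u _ _ => by omega)
      rw [hT] at this
      simp only [cube, sum_sq]
      simpa [two_mul] using this
  · intro a x y ha hT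
    lift a to ℕ using (by omega)
    refine hc ![y - 1, x - 1] (2 * a) (by omega) (fair_of hk2 c _ 1 (x + a - 1) ?_ ?_)
    · have := cut_TT (fun _ _ => 1) x a a y (2 * a) (x + a - 1) (by omega) (by omega)
        (fun u _ _ => by omega)
      rw [TT_one x a a y (2 * a) (by omega) (by omega) (by omega)] at this
      simp only [cube, sum_sq]
      rw [sum_comm]
      simpa [two_mul] using this
    · have := cut_TT (fun u v => iB (decide ((c ![v, u]).val = 0))) x a a y (2 * a) (x + a - 1)
        (by omega) (by omega) (fun u _ _ => by omega)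
      rw [hT] at this
      simp only [cube, sum_sq]
      rw [sum_comm]
      simpa [two_mul] using this

end Pool.Agent.Results.MP_9837da_co.AG12EqThree
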